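import Pool.Agent.W973.CES.Defs

set_option autoImplicit false

namespace Pool.Agent.W140.CES

open Pool.Agent.W973.CES Pool.Agent.NPC

theorem perm : S_PERM := by
  intro n M hM
  have hlen : M.length = n := by rw [hM.length_eq, List.length_range]
  have hnd : M.Nodup := hM.nodup_iff.mpr List.nodup_range
  have hmem : ∀ j, j ∈ M ↔ j < n := fun j => by rw [hM.mem_iff, List.mem_range]
  have hget : ∀ i (h : i < n), M.getD i 0 = M[i]'(by omega) := by
    intro i h
    rw [List.getD_eq_getElem]
  refine ⟨?_, ?_, ?_, ?_⟩
  · intro i hi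
    show M.getD i 0 < n
    rw [hget i hi]
    exact (hmem _).mp (List.getElem_mem _)
  · intro i hi
    show M.idxOf i < n
    rw [← hlen]
    exact List.idxOf_lt_length_iff.mpr ((hmem i).mpr hi)
  · intro i hi
    show M.idxOf (M.getD i 0) = i
    rw [hget i hi]
    exact hnd.idxOf_getElem i (by omega)
  · intro i hi
    show M.getD (M.idxOf i) 0 = i
    have h1 : M.idxOf i < M.length := List.idxOf_lt_length_iff.mpr ((hmem i).mpr hi)
    rw [List.getD_eq_getElem (hn := h1)]
    exact List.getElem_idxOf h1

end Pool.Agent.W140.CES
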